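import Pool.Agent.Helper2.TS.Spec

/-!
# TS, part ABV: the primes above a prime number
-/

set_option autoImplicit false

open scoped NumberField

namespace Pool.Agent.Helper51.TS.ABV

open Pool.Agent.Helper2.TS Pool.Agent.Helper20.EP

theorem main : S_ABV := by
  intro K _ _
  have h1 : ∀ P : Ideal (𝓞 K), P.IsPrime → P ≠ ⊥ → ∃ p f : ℕ, p.Prime ∧ 1 ≤ f ∧
      Ideal.absNorm P = p ^ f ∧ (p : 𝓞 K) ∈ P := by
    intro P hP hP0
    have hmax : P.IsMaximal := hP.isMaximal hP0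
    let _ : Field (𝓞 K ⧸ P) := Ideal.Quotient.field P
    have : Finite (𝓞 K ⧸ P) := Ideal.finiteQuotientOfFreeOfNeBot P hP0
    have : Fintype (𝓞 K ⧸ P) := Fintype.ofFinite _
    obtain ⟨p, hp⟩ := CharP.exists (𝓞 K ⧸ P)
    obtain ⟨n, hpp, hn⟩ := FiniteField.card (𝓞 K ⧸ P) p
    refine ⟨p, n, hpp, n.pos, ?_, ?_⟩
    · rw [Ideal.absNorm_apply, Submodule.cardQuot_apply, Nat.card_eq_fintype_card]
      exact hn
    · have h2 : ((p : 𝓞 K ⧸ P)) = 0 := CharP.cast_eq_zero _ p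
      rw [← Ideal.Quotient.eq_zero_iff_mem, map_natCast]
      exact h2
  refine ⟨h1, ?_⟩
  intro p hp s hs
  have hp0 : (p : 𝓞 K) ≠ 0 := Nat.cast_ne_zero.2 hp.ne_zero
  have hne : ∀ P ∈ s, P ≠ ⊥ := by
    intro P hP hcon
    have := (hs P hP).2
    rw [hcon, Ideal.mem_bot] at this
    exact hp0 this
  have hmax : ∀ P ∈ s, P.IsMaximal := fun P hP => (hs P hP).1.isMaximal (hne P hP)
  have hdvd : ∀ P ∈ s, P ∣ Ideal.span {(p : 𝓞 K)} := by
    intro P hP
    rw [Ideal.dvd_span_singleton]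
    exact (hs P hP).2
  have hprod : ∏ P ∈ s, P ∣ Ideal.span {(p : 𝓞 K)} := by
    apply Finset.prod_dvd_of_coprime (s := fun P : Ideal (𝓞 K) => P)
    · intro P hP Q hQ hPQ
      have := hmax P hP
      have := hmax Q hQ
      exact Ideal.isCoprime_of_isMaximal hPQ
    · exact hdvd
  have hn1 : Ideal.absNorm (∏ P ∈ s, P) ∣ p ^ Module.finrank ℤ (𝓞 K) := by
    rw [← Ideal.absNorm_span_natCast]
    exact map_dvd Ideal.absNorm hprod
  rw [map_prod] at hn1
  have hge : ∀ P ∈ s, p ≤ Ideal.absNorm P := by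
    intro P hP
    have h2 : Ideal.absNorm P ∣ p ^ Module.finrank ℤ (𝓞 K) := by
      rw [← Ideal.absNorm_span_natCast]
      exact map_dvd Ideal.absNorm (hdvd P hP)
    obtain ⟨k, -, hk⟩ := (Nat.dvd_prime_pow hp).1 h2
    have hk0 : k ≠ 0 := by
      rintro rfl
      rw [pow_zero, Ideal.absNorm_eq_one_iff] at hk
      exact (hmax P hP).ne_top hk
    rw [hk]
    exact Nat.le_self_pow hk0 p
  have h3 : p ^ s.card ≤ ∏ P ∈ s, Ideal.absNorm P := by
    rw [← Finset.prod_const]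
    exact Finset.prod_le_prod' hge
  have h4 : p ^ s.card ≤ p ^ Module.finrank ℤ (𝓞 K) :=
    h3.trans (Nat.le_of_dvd (pow_pos hp.pos _) hn1)
  rw [← NumberField.RingOfIntegers.rank K]
  exact (Nat.pow_le_pow_iff_right hp.one_lt).1 h4

end Pool.Agent.Helper51.TS.ABV
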